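import Pool.Agent.Helper22_DEN4.Stmt

/-!
# Temperedness of 100 % of the cusp forms with a rate: global definitions and statements
-/

open scoped BigOperators

namespace Pool.Agent.DEN.TMP

open Pool.Agent.DEN

/-! ## The Hecke algebra of a pair `(H, L)` -/

section
variable {H : Type} [Group H]

/-- `κ` is a Hecke function for `(H, L)`: `L`-bi-invariant with finite support modulo `L`. -/
def Hk (L : Subgroup H) (κ : H → ℂ) : Prop :=
  (∀ k ∈ L, ∀ g, κ (k * g) = κ g ∧ κ (g * k) = κ g) ∧ {y : H ⧸ L | κ y.out ≠ 0}.Finite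

/-- The convolution. -/
noncomputable def cnv (L : Subgroup H) (κ κ' : H → ℂ) (g : H) : ℂ :=
  ∑ᶠ y : H ⧸ L, κ y.out * κ' (y.out⁻¹ * g)

/-- The adjoint. -/
noncomputable def sta (κ : H → ℂ) (g : H) : ℂ := (starRingEnd ℂ) (κ g⁻¹)

open Classical in
/-- The unit. -/
noncomputable def uni (L : Subgroup H) (g : H) : ℂ := if g ∈ L then 1 else 0

/-- `lam` is a character of the Hecke algebra (its values at functions which are not Hecke functions
do not matter). -/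
structure IsChr (L : Subgroup H) (lam : (H → ℂ) → ℂ) : Prop where
  add : ∀ κ κ', Hk L κ → Hk L κ' → lam (κ + κ') = lam κ + lam κ'
  smul : ∀ (c : ℂ) κ, Hk L κ → lam (c • κ) = c * lam κ
  mul : ∀ κ κ', Hk L κ → Hk L κ' → lam (cnv L κ κ') = lam κ * lam κ'
  one : lam (uni L) = 1

/-- `lam` is hermitian. -/
def IsHer (L : Subgroup H) (lam : (H → ℂ) → ℂ) : Prop :=
  ∀ κ, Hk L κ → lam (sta κ) = (starRingEnd ℂ) (lam κ)

/-- `lam` is tempered: `|lam κ|` is at most the norm of `T_κ` on `ℓ²(H / L)`. -/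
def IsTmp (L : Subgroup H) (lam : (H → ℂ) → ℂ) : Prop :=
  ∀ (κ : H → ℂ) (τ : ℝ), 0 ≤ τ → Hk L κ → NormLE L κ τ → ‖lam κ‖ ≤ τ

/-- `(H, L)` is a Hecke pair: the orbits of `L` on `H / L` are finite. -/
def HCo (L : Subgroup H) : Prop :=
  ∀ g : H, {y : H ⧸ L | ∃ l ∈ L, y = QuotientGroup.mk (l * g)}.Finite

end

/-- HKA: the Hecke functions are stable under the operations. -/
def HkaStmt : Prop :=
  ∀ (H : Type) [Group H] (L : Subgroup H),
    (∀ κ κ', Hk L κ → Hk L κ' → Hk L (κ + κ')) ∧ (∀ (c : ℂ) κ, Hk L κ → Hk L (c • κ)) ∧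
    (∀ κ κ', Hk L κ → Hk L κ' → Hk L (cnv L κ κ')) ∧ (HCo L → ∀ κ, Hk L κ → Hk L (sta κ)) ∧
    Hk L (uni L) ∧ (∀ κ : H → ℂ, sta (sta κ) = κ)

/-- KFIN: the orbits of `K` on `X` are finite (from FLD1, BDG). -/
def KfinStmt : Prop :=
  ∀ (r : ℕ) (C : Matrix (Fin r) (Fin r) ℤ) (_ : SimplyLaced C) (K : Type) [Field K] [Finite K],
    HCo (maxK C K)

/-- CHR0: the eigenvalues of a nonzero function are a character (from HKA). -/
def Chr0Stmt : Prop :=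
  ∀ (H : Type) [Group H] (L : Subgroup H) (F : H ⧸ L → ℂ), (∃ x, F x ≠ 0) →
    ∀ lam : (H → ℂ) → ℂ,
    (∀ κ, Hk L κ → ∀ x, ∑ᶠ y : H ⧸ L, κ (x.out⁻¹ * y.out) * F y = lam κ * F x) → IsChr L lam

/-- TRC: transfer of Hecke functions by a homomorphism `φ : H' → H` with `φ⁻¹(L) = L'` and
`H = φ(H') L`. -/
def TrcStmt : Prop :=
  ∀ (H H' : Type) [Group H] [Group H'] (L : Subgroup H) (L' : Subgroup H') (φ : H' →* H),
    (∀ g, φ g ∈ L ↔ g ∈ L') → (∀ h : H, ∃ g, ∃ l ∈ L, h = φ g * l) →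
    (HCo L → HCo L') ∧ (∀ κ, Hk L κ → Hk L' (κ ∘ φ)) ∧
    (∀ κ κ', Hk L κ → Hk L κ' → cnv L' (κ ∘ φ) (κ' ∘ φ) = cnv L κ κ' ∘ φ) ∧
    (∀ κ : H → ℂ, sta (κ ∘ φ) = sta κ ∘ φ) ∧ (uni L' = uni L ∘ φ) ∧
    (∀ κ, Hk L κ → normSq L' (κ ∘ φ) = normSq L κ) ∧
    (∀ κ, Hk L κ → ∀ τ, NormLE L' (κ ∘ φ) τ ↔ NormLE L κ τ) ∧
    (∀ lam, IsChr L' lam → IsChr L (fun κ => lam (κ ∘ φ))) ∧
    (∀ lam, IsHer L' lam → IsHer L (fun κ => lam (κ ∘ φ)))

/-- MTP: mass transport. -/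
def MtpStmt : Prop :=
  ∀ (Δ X : Type) [Group Δ] [MulAction Δ X], (∀ x : X, Finite (MulAction.stabilizer Δ x)) →
    ∀ Φ : X → X → ℂ, (∀ (γ : Δ) x y, Φ (γ • x) (γ • y) = Φ x y) →
    (∀ x, {y | Φ x y ≠ 0}.Finite) → (∀ y, {x | Φ x y ≠ 0}.Finite) →
    {o : MulAction.orbitRel.Quotient Δ X | ∃ y, Φ o.out y ≠ 0}.Finite →
    ∑ᶠ o : MulAction.orbitRel.Quotient Δ X,
        (∑ᶠ y, Φ o.out y) / (Nat.card (MulAction.stabilizer Δ o.out) : ℂ) =
      ∑ᶠ o : MulAction.orbitRel.Quotient Δ X,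
        (∑ᶠ x, Φ x o.out) / (Nat.card (MulAction.stabilizer Δ o.out) : ℂ)

/-- ADJ: adjointness for the action of a pair `(H, L)` on a space with finite stabilizers for `L`
(from MTP, applied to the diagonal action of `H` on `X × H / L`, or directly). -/
def AdjStmt : Prop :=
  ∀ (H X : Type) [Group H] [MulAction H X] (L : Subgroup H),
    (∀ x : X, Finite (MulAction.stabilizer L x)) →
    ∀ f g : X → ℂ, (∀ l ∈ L, ∀ x, f (l • x) = f x) → (∀ l ∈ L, ∀ x, g (l • x) = g x) →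
    {o : MulAction.orbitRel.Quotient L X | f o.out ≠ 0}.Finite →
    {o : MulAction.orbitRel.Quotient L X | g o.out ≠ 0}.Finite →
    ∀ κ, Hk L κ → Hk L (sta κ) →
    ∑ᶠ o : MulAction.orbitRel.Quotient L X,
        (starRingEnd ℂ) (∑ᶠ δ : H ⧸ L, κ δ.out * f (δ.out⁻¹ • o.out)) * g o.out /
          (Nat.card (MulAction.stabilizer L o.out) : ℂ) =
      ∑ᶠ o : MulAction.orbitRel.Quotient L X,
        (starRingEnd ℂ) (f o.out) * (∑ᶠ δ : H ⧸ L, sta κ δ.out * g (δ.out⁻¹ • o.out)) /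
          (Nat.card (MulAction.stabilizer L o.out) : ℂ)

/-! ## Temperedness of cusp forms -/

section
variable {r : ℕ} {C : Matrix (Fin r) (Fin r) ℤ} {K : Type} [Field K]

/-- `f` is an eigenform of all the spherical Hecke operators at `∞`. -/
def EigAllInf (f : XX C K → ℂ) : Prop :=
  ∀ (κ : grp C K → ℂ) (R : ℕ), HeckeInf κ R → ∃ lam, EigenInf κ lam f

/-- `f` is tempered at `∞`: the eigenvalue of every spherical Hecke operator is at most its norm on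
`ℓ²(G / K)`. -/
def TemperedInf (f : XX C K → ℂ) : Prop :=
  ∀ (κ : grp C K → ℂ) (R : ℕ) (lam : ℂ) (τ : ℝ), 0 ≤ τ → HeckeInf κ R → EigenInf κ lam f →
    NormLE (maxK C K) κ τ → ‖lam‖ ≤ τ

/-- `f` is an eigenform of all the spherical Hecke operators at `P`. -/
def EigAllFin (P N : Polynomial K) (f : XX C K → ℂ) : Prop :=
  ∀ (κ : arith C K P → ℂ) (R : ℕ), HeckeFin P κ R → ∃ lam, EigenFin P N κ lam f

/-- `f` is tempered at `P`. -/
def TemperedFin (P N : Polynomial K) (f : XX C K → ℂ) : Prop :=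
  ∀ (κ : arith C K P → ℂ) (R : ℕ) (lam : ℂ) (τ : ℝ), 0 ≤ τ → HeckeFin P κ R →
    EigenFin P N κ lam f →
    NormLE ((arith C K 1).subgroupOf (arith C K P)) κ τ → ‖lam‖ ≤ τ

end

/-- CHI: the character of a cusp form at `∞` (from HKA, KFIN, CHR0, MTP and the library: FIN,
FSP, BDG). -/
def ChiStmt : Prop :=
  ∀ (r : ℕ) (C : Matrix (Fin r) (Fin r) ℤ) (_ : SimplyLaced C) (K : Type) [Field K] [Finite K]
    (N : Polynomial K) (_ : N ≠ 0) (f : XX C K → ℂ), IsCusp N f → petersson N f f = 1 →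
    EigAllInf f → ∃ lam : (grp C K → ℂ) → ℂ, IsChr (maxK C K) lam ∧ IsHer (maxK C K) lam ∧
      (∀ κ, Hk (maxK C K) κ → ∃ R, HeckeInf κ R) ∧
      (∀ κ, Hk (maxK C K) κ → EigenInf κ (lam κ) f) ∧
      (IsTmp (maxK C K) lam → TemperedInf f)

/-- TRP: the place `P` (`P` irreducible) and the field `K₂ = K[t] / P`, which has the completion
`K₂((1/t))`: the group `Γ_P` maps to `G(K₂((1/t)))`, with `Γ` the inverse image of the maximal
compact subgroup and with dense image; Hecke functions at `P` come from Hecke functions there. -/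
def TrpStmt : Prop :=
  ∀ (r : ℕ) (C : Matrix (Fin r) (Fin r) ℤ) (_ : SimplyLaced C) (K : Type) [Field K] [Finite K]
    (P : Polynomial K), Irreducible P →
    ∃ (K₂ : Type) (_ : Field K₂) (_ : Finite K₂) (φ : arith C K P →* grp C K₂),
      Nat.card K₂ = Nat.card K ^ P.natDegree ∧
      (∀ g, φ g ∈ maxK C K₂ ↔ g ∈ (arith C K 1).subgroupOf (arith C K P)) ∧
      (∀ h : grp C K₂, ∃ g, ∃ l ∈ maxK C K₂, h = φ g * l) ∧
      (∀ (R : ℕ) (g : arith C K P), bnd R (φ g) →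
        ∀ v : LieV C (FF K), Cd (ringA K 1) v → Cd (ringA K 1) (polyL K P ^ R • (g.1.1 v))) ∧
      (∀ (κ : arith C K P → ℂ) (R : ℕ), HeckeFin P κ R →
        ∃ κ₂ : grp C K₂ → ℂ, Hk (maxK C K₂) κ₂ ∧ κ = κ₂ ∘ φ)

/-- CHF: the character of a cusp form at `P` (from HKA, KFIN, CHR0, TRC, ADJ and the library: NRM,
FIN, FSP, BDG, TRF). -/
def ChfStmt : Prop :=
  ∀ (r : ℕ) (C : Matrix (Fin r) (Fin r) ℤ) (_ : SimplyLaced C) (K : Type) [Field K] [Finite K]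
    (N : Polynomial K) (_ : N ≠ 0) (P : Polynomial K) (_ : Irreducible P) (_ : IsCoprime P N)
    (f : XX C K → ℂ), IsCusp N f → petersson N f f = 1 → EigAllFin P N f →
    ∀ (K₂ : Type) [Field K₂] [Finite K₂] (φ : arith C K P →* grp C K₂),
    (∀ g, φ g ∈ maxK C K₂ ↔ g ∈ (arith C K 1).subgroupOf (arith C K P)) →
    (∀ h : grp C K₂, ∃ g, ∃ l ∈ maxK C K₂, h = φ g * l) →
    (∀ (R : ℕ) (g : arith C K P), bnd R (φ g) →
      ∀ v : LieV C (FF K), Cd (ringA K 1) v → Cd (ringA K 1) (polyL K P ^ R • (g.1.1 v))) →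
    (∀ (κ : arith C K P → ℂ) (R : ℕ), HeckeFin P κ R →
      ∃ κ₂ : grp C K₂ → ℂ, Hk (maxK C K₂) κ₂ ∧ κ = κ₂ ∘ φ) →
    ∃ lam : (grp C K₂ → ℂ) → ℂ, IsChr (maxK C K₂) lam ∧ IsHer (maxK C K₂) lam ∧
      (∀ (κ₂ : grp C K₂ → ℂ) (R : ℕ), HeckeInf κ₂ R → HeckeFin P (κ₂ ∘ φ) R ∧
        EigenFin P N (κ₂ ∘ φ) (lam κ₂) f) ∧
      (IsTmp (maxK C K₂) lam → TemperedFin P N f)

/-! ## The local theorem -/

/-- LOCF: detection of the characters which are not tempered, by finitely many Hecke functions of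
small norm, with constants which only depend on `C` (from the Satake isomorphism, the inversion at
the identity and the elimination). -/
def LocfStmt : Prop :=
  ∀ (r : ℕ) (C : Matrix (Fin r) (Fin r) ℤ) (_ : SimplyLaced C), ∃ c : ℕ, 0 < c ∧
    ∀ (K : Type) [Field K] [Finite K] (n : ℕ), 0 < n →
    ∃ (M : ℕ) (κ : Fin M → grp C K → ℂ), (∀ i, HeckeInf (κ i) (c * n)) ∧
      ∑ i, normSq (maxK C K) (κ i) ≤ c / n ∧
      ∀ lam : (grp C K → ℂ) → ℂ, IsChr (maxK C K) lam → IsHer (maxK C K) lam →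
        ¬ IsTmp (maxK C K) lam → ∃ i, 1 ≤ ‖lam (κ i)‖

/-! ## The count -/

/-- MVI: mean value bound at `∞` (from Thi2Stmt, Cn2Stmt; radius at most a quarter of `deg N`). -/
def MviStmt : Prop :=
  ∀ (r : ℕ) (C : Matrix (Fin r) (Fin r) ℤ) (_ : SimplyLaced C) (K : Type) [Field K] [Finite K]
    (_ : 0 < r) (N : Polynomial K) (_ : N ≠ 0) (n : ℕ) (f : Fin n → XX C K → ℂ)
    (_ : ∀ j, IsCusp N (f j)) (_ : ∀ i j, petersson N (f i) (f j) = if i = j then 1 else 0)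
    (R : ℕ) (_ : 4 * R + 4 ≤ N.natDegree) (κ : grp C K → ℂ) (_ : HeckeInf κ R)
    (lam : Fin n → ℂ) (_ : ∀ j, EigenInf κ (lam j) (f j)),
    ∑ j, ‖lam j‖ ^ 2 ≤ 3 ^ r * (cong C K 1 N).relIndex (arith C K 1) * normSq (maxK C K) κ

/-- MVF: mean value bound at `P`. -/
def MvfStmt : Prop :=
  ∀ (r : ℕ) (C : Matrix (Fin r) (Fin r) ℤ) (_ : SimplyLaced C) (K : Type) [Field K] [Finite K]
    (_ : 0 < r) (N : Polynomial K) (_ : N ≠ 0) (n : ℕ) (f : Fin n → XX C K → ℂ)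
    (_ : ∀ j, IsCusp N (f j)) (_ : ∀ i j, petersson N (f i) (f j) = if i = j then 1 else 0)
    (P : Polynomial K) (_ : 0 < P.natDegree) (_ : IsCoprime P N)
    (R : ℕ) (_ : 4 * (R * P.natDegree) + 4 ≤ N.natDegree) (κ : arith C K P → ℂ)
    (_ : HeckeFin P κ R) (lam : Fin n → ℂ) (_ : ∀ j, EigenFin P N κ (lam j) (f j)),
    ∑ j, ‖lam j‖ ^ 2 ≤ 3 ^ r * (cong C K 1 N).relIndex (arith C K 1) *
      normSq ((arith C K 1).subgroupOf (arith C K P)) κ

/-- TRV: the trivial bound (from Thi2Stmt, Cn2Stmt with the unit). -/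
def TrvStmt : Prop :=
  ∀ (r : ℕ) (C : Matrix (Fin r) (Fin r) ℤ) (_ : SimplyLaced C) (K : Type) [Field K] [Finite K]
    (_ : 0 < r) (N : Polynomial K) (_ : 0 < N.natDegree) (n : ℕ) (f : Fin n → XX C K → ℂ)
    (_ : ∀ j, IsCusp N (f j)) (_ : ∀ i j, petersson N (f i) (f j) = if i = j then 1 else 0),
    (n : ℝ) ≤ 3 ^ r * (cong C K 1 N).relIndex (arith C K 1)

/-- FINI: the theorem at `∞` (from CHI, LOCF, MVI, TRV). -/
def FiniStmt : Prop :=
  ∀ (r : ℕ) (C : Matrix (Fin r) (Fin r) ℤ) (_ : SimplyLaced C) (_ : 0 < r), ∃ A : ℕ,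
    ∀ (K : Type) [Field K] [Finite K] (N : Polynomial K) (_ : N ≠ 0) (n : ℕ)
    (f : Fin n → XX C K → ℂ) (_ : ∀ j, IsCusp N (f j))
    (_ : ∀ i j, petersson N (f i) (f j) = if i = j then 1 else 0),
    (∀ j, EigAllInf (f j)) → (∀ j, ¬ TemperedInf (f j)) →
    (n * N.natDegree : ℝ) ≤ A * (cong C K 1 N).relIndex (arith C K 1)

/-- FINF: the theorem at `P` (from TRP, CHF, TRC, LOCF, MVF, TRV). -/
def FinfStmt : Prop :=
  ∀ (r : ℕ) (C : Matrix (Fin r) (Fin r) ℤ) (_ : SimplyLaced C) (_ : 0 < r), ∃ A : ℕ,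
    ∀ (K : Type) [Field K] [Finite K] (N : Polynomial K) (_ : N ≠ 0) (n : ℕ)
    (f : Fin n → XX C K → ℂ) (_ : ∀ j, IsCusp N (f j))
    (_ : ∀ i j, petersson N (f i) (f j) = if i = j then 1 else 0)
    (P : Polynomial K) (_ : Irreducible P) (_ : IsCoprime P N),
    (∀ j, EigAllFin P N (f j)) → (∀ j, ¬ TemperedFin P N (f j)) →
    (n * N.natDegree : ℝ) ≤ A * P.natDegree * (cong C K 1 N).relIndex (arith C K 1)

/-- FINS: the simultaneous version (from FINI, FINF). -/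
def FinsStmt : Prop :=
  ∀ (r : ℕ) (C : Matrix (Fin r) (Fin r) ℤ) (_ : SimplyLaced C) (_ : 0 < r), ∃ A : ℕ,
    ∀ (K : Type) [Field K] [Finite K] (N : Polynomial K) (_ : N ≠ 0) (n : ℕ)
    (f : Fin n → XX C K → ℂ) (_ : ∀ j, IsCusp N (f j))
    (_ : ∀ i j, petersson N (f i) (f j) = if i = j then 1 else 0) (d : ℕ),
    (∀ j, EigAllInf (f j)) →
    (∀ (P : Polynomial K), Irreducible P → P.Monic → IsCoprime P N → P.natDegree ≤ d →
      ∀ j, EigAllFin P N (f j)) →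
    (∀ j, ¬ (TemperedInf (f j) ∧ ∀ (P : Polynomial K), Irreducible P → P.Monic → IsCoprime P N →
      P.natDegree ≤ d → TemperedFin P N (f j))) →
    (n * N.natDegree : ℝ) ≤ A * ((d + 1) * Nat.card K ^ d : ℕ) *
      (cong C K 1 N).relIndex (arith C K 1)

end Pool.Agent.DEN.TMP
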