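import Pool.Agent.Helper2_TMP.Fin
import Pool.Agent.Helper10_TMP.Sur
import Pool.Agent.Helper13_TMP.Cls
import Pool.Agent.Helper13_TMP.Kgn
import Pool.Agent.Helper13_TMP.Trv
import Pool.Agent.Helper18_TMP.Hka
import Pool.Agent.Helper19_TMP.Ker
import Pool.Agent.Helper27_TMP.Ctu
import Pool.Agent.Helper27_TMP.Finf
import Pool.Agent.Helper27_TMP.Locf
import Pool.Agent.Helper29_TMP.DelS
import Pool.Agent.Helper29_TMP.Inv
import Pool.Agent.Helper39_TMP.Dep
import Pool.Agent.Helper39_TMP.Hor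
import Pool.Agent.Helper43_TMP.Cat
import Pool.Agent.Helper43_TMP.Fla
import Pool.Agent.Helper43_TMP.Kfin
import Pool.Agent.Helper43_TMP.Trp
import Pool.Agent.Helper47_TMP.Lin
import Pool.Agent.Helper56_TMP.Chf
import Pool.Agent.Helper56_TMP.Chi
import Pool.Agent.Helper58_TMP.Khk
import Pool.Agent.Helper58_TMP.Smu
import Pool.Agent.Helper58_TMP.Trc
import Pool.Agent.Helper63_TMP.Coo
import Pool.Agent.Helper63_TMP.Slt
import Pool.Agent.Helper65_TMP.Adj
import Pool.Agent.Helper65_TMP.Mtp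
import Pool.Agent.Helper66_TMP.Rad
import Pool.Agent.Helper6_TMP.Pln
import Pool.Agent.Helper70_TMP.Fini
import Pool.Agent.Helper70_TMP.Mvf
import Pool.Agent.Helper75_TMP.Win
import Pool.Agent.Helper81_TMP.Avg
import Pool.Agent.Helper81_TMP.Kor
import Pool.Agent.Helper97_TMP.Mvi
import Pool.Agent.Helper99_TMP.Ian
import Pool.Agent.Helper99_TMP.Vis

/-!
# Temperedness of 100 % of the cusp forms with a rate: the modules together
-/

namespace Pool.Agent.TMP

theorem hKfin : Pool.Agent.DEN.TMP.KfinStmt := H43.kfin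
theorem hSlt : SltStmt := H63.slt
theorem hCoo : CooStmt := H63.coo
theorem hHor : HorStmt := H39.hor hCoo
theorem hCls : ClsStmt := H13.cls
theorem hVis : VisStmt := H99.vis
theorem hLin : LinStmt := H47.lin hSlt
theorem hIan : IanStmt := H99.ian hSlt
theorem hKgn : KgnStmt := H13.kgn hHor
theorem hKor : KorStmt := H81.kor hKgn hVis hLin
theorem hCat : CatStmt := H43.Cat.cat hKfin hCoo hHor hIan hKor
theorem hKer : Pool.Agent.TMP.KerStmt := Pool.Agent.TMP.H19.ker hKfin
theorem hKhk : KhkStmt := H58.khk hKer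
theorem hRad : RadStmt := H66.rad
theorem hWin : WinStmt := H75.win hKer hHor hCls hVis
theorem hSmu : SmuStmt := H58.smu hKer hHor
theorem hAvg : AvgStmt := H81.avg
theorem hInv : InvStmt := H29.inv hKfin hKer hAvg hLin hCls hVis hIan hKgn hCat hHor
theorem hCtu : CtuStmt := H27.ctu hCoo hCls
theorem hDep : DepStmt := H39.dep hKer hSmu hHor
theorem hFla : FlaStmt := H43.fla hCtu hDep hSmu hKer
theorem hPln : PlnStmt := H6.pln H29.delS hInv hSmu hKer hFla
theorem hSur : SurStmt := H10.sur hKfin hWin hSmu hCat hKer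
theorem hLocf : Pool.Agent.DEN.TMP.LocfStmt := H27.locf hKer hKhk hRad hWin hSmu hPln hFla hSur

end Pool.Agent.TMP

namespace Pool.Agent.DEN.TMP

open Pool.Agent.TMP (hKfin hLocf)

theorem hHka : HkaStmt := H18.hka
theorem hChr0 : Chr0Stmt := H58.chr0 hHka
theorem hTrc : TrcStmt := H58.trc
theorem hMtp : MtpStmt := H65.mtp
theorem hAdj : AdjStmt := H65.adj hMtp
theorem hChi : ChiStmt := H56.chi hHka hKfin hChr0 hMtp
theorem hChf : ChfStmt := H56.chf hHka hKfin hChr0 hTrc hAdj
theorem hTrp : TrpStmt := Pool.Agent.TMP.H43.trp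
theorem hMvi : MviStmt := H97.mvi
theorem hMvf : MvfStmt := H70.mvf
theorem hTrv : TrvStmt := H13.trv

theorem hFini : FiniStmt := H70.fini hChi hLocf hMvi hTrv
theorem hFinf : FinfStmt := H27.finf hTrp hChf hTrc hLocf hMvf hTrv

end Pool.Agent.DEN.TMP
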