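import Pool.Agent.Helper22_DEN2.Pub2

/-!
# Temperedness of cusp forms: definitions
-/

open scoped BigOperators

namespace Pool.Agent.DEN.Pub

open Pool.Agent.DEN

section
variable {r : ℕ} {C : Matrix (Fin r) (Fin r) ℤ} {K : Type} [Field K]

/-- `f` is an eigenform of all the spherical Hecke operators at the place `∞`. -/
def EigAllInf (f : X C K → ℂ) : Prop :=
  ∀ (κ : G C K → ℂ) (R : ℕ), HeckeInf κ R → ∃ lam, EigenInf κ lam f

/-- The eigenform `f` is tempered at `∞`: the eigenvalue of every spherical Hecke operator `T_κ` is
at most every bound `τ` of its norm on `ℓ²(G / K)`, that is at most this norm.  (The spherical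
function with these eigenvalues is then weakly contained in `ℓ²(G / K)`; equivalently, the Satake
parameter of `f` at `∞` is unitary.) -/
def TemperedInf (f : X C K → ℂ) : Prop :=
  ∀ (κ : G C K → ℂ) (R : ℕ) (lam : ℂ) (τ : ℝ), 0 ≤ τ → HeckeInf κ R → EigenInf κ lam f →
    NormLE (maxK C K) κ τ → ‖lam‖ ≤ τ

/-- `f` is an eigenform of all the spherical Hecke operators at the place `P`. -/
def EigAllFin (P N : Polynomial K) (f : X C K → ℂ) : Prop :=
  ∀ (κ : GP C K P → ℂ) (R : ℕ), HeckeFin P κ R → ∃ lam, EigenFin P N κ lam f

/-- The eigenform `f` of level `N` is tempered at the place `P`: the eigenvalue of every spherical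
Hecke operator `T_κ` at `P` is at most its norm on `ℓ²(Γ_P / Γ) = ℓ²(G(F_P) / G(𝒪_P))`. -/
def TemperedFin (P N : Polynomial K) (f : X C K → ℂ) : Prop :=
  ∀ (κ : GP C K P → ℂ) (R : ℕ) (lam : ℂ) (τ : ℝ), 0 ≤ τ → HeckeFin P κ R →
    EigenFin P N κ lam f → NormLE (Γ C K P) κ τ → ‖lam‖ ≤ τ

/-- The places of `K(t)`: `none` is the place `∞` and `some P`, for an irreducible polynomial `P`, is
the place of `P`; this is the condition that the place `v` is `∞` or does not divide the level `N`. -/
def UnrPlace (N : Polynomial K) : Option (Polynomial K) → Prop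
  | none => True
  | some P => Irreducible P ∧ IsCoprime P N

/-- The degree of a place. -/
noncomputable def degPlace : Option (Polynomial K) → ℕ
  | none => 1
  | some P => P.natDegree

/-- `f` is an eigenform of all the spherical Hecke operators at the place `v`. -/
def EigAll (N : Polynomial K) (f : X C K → ℂ) : Option (Polynomial K) → Prop
  | none => EigAllInf f
  | some P => EigAllFin P N f

/-- The eigenform `f` is tempered at the place `v`. -/
def Tempered (N : Polynomial K) (f : X C K → ℂ) : Option (Polynomial K) → Prop
  | none => TemperedInf f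
  | some P => TemperedFin P N f

end

end Pool.Agent.DEN.Pub
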