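import Pool.Agent.Helper2_TMP.StG
import Pool.Agent.Helper2_TMP.Pub3
import Pool.Agent.Helper22_DEN2.Asm

/-!
# Temperedness at a finite set of places
-/

open scoped BigOperators

namespace Pool.Agent.DEN.TMP

open Pool.Agent.DEN Pool.Agent.DEN.Pub

/-- One place. -/
theorem one_place (hFini : FiniStmt) (hFinf : FinfStmt) {r : ℕ} (hr : 0 < r)
    (C : Matrix (Fin r) (Fin r) ℤ) (hC : SimplyLaced C) :
    ∃ A : ℕ, ∀ (K : Type) [Field K] [Finite K] (N : Polynomial K), N ≠ 0 →
      ∀ (n : ℕ) (f : Fin n → Pub.X C K → ℂ), (∀ j, Pub.IsCusp N (f j)) →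
        (∀ i j, Pub.petersson N (f i) (f j) = if i = j then 1 else 0) →
        ∀ v : Option (Polynomial K), UnrPlace N v → (∀ j, EigAll N (f j) v) →
        (∀ j, ¬ Tempered N (f j) v) →
        (n * N.natDegree : ℝ) ≤ A * degPlace v * idx C N := by
  obtain ⟨A₁, h1⟩ := hFini r C hC hr
  obtain ⟨A₂, h2⟩ := hFinf r C hC hr
  refine ⟨A₁ + A₂, fun K _ _ N hN n f hf ho v hv he ht => ?_⟩
  have a1 : (0 : ℝ) ≤ A₁ := Nat.cast_nonneg _
  have a2 : (0 : ℝ) ≤ A₂ := Nat.cast_nonneg _
  cases v with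
  | none =>
    have h3 : (n * N.natDegree : ℝ) ≤ A₁ * idx C N := h1 K N hN n f hf ho he ht
    refine h3.trans (mul_le_mul_of_nonneg_right ?_ (Nat.cast_nonneg _))
    push_cast
    simp only [degPlace, Nat.cast_one, mul_one]
    linarith
  | some P =>
    have h3 : (n * N.natDegree : ℝ) ≤ A₂ * P.natDegree * idx C N :=
      h2 K N hN n f hf ho P hv.1 hv.2 he ht
    refine h3.trans (mul_le_mul_of_nonneg_right (mul_le_mul_of_nonneg_right ?_
      (Nat.cast_nonneg _)) (Nat.cast_nonneg _))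
    push_cast
    linarith

/-- Finitely many places. -/
theorem many_places (hFini : FiniStmt) (hFinf : FinfStmt) {r : ℕ} (hr : 0 < r)
    (C : Matrix (Fin r) (Fin r) ℤ) (hC : SimplyLaced C) :
    ∃ A : ℕ, ∀ (K : Type) [Field K] [Finite K] (N : Polynomial K), N ≠ 0 →
      ∀ (n : ℕ) (f : Fin n → Pub.X C K → ℂ), (∀ j, Pub.IsCusp N (f j)) →
        (∀ i j, Pub.petersson N (f i) (f j) = if i = j then 1 else 0) →
        ∀ S : Finset (Option (Polynomial K)), (∀ v ∈ S, UnrPlace N v) →
        (∀ j, ∀ v ∈ S, EigAll N (f j) v) → (∀ j, ∃ v ∈ S, ¬ Tempered N (f j) v) →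
        (n : ℝ) * N.natDegree ≤ A * (∑ v ∈ S, degPlace v : ℕ) * idx C N := by
  obtain ⟨A, hA⟩ := one_place hFini hFinf hr C hC
  refine ⟨A, fun K _ _ N hN n f hf ho S hS he ht => ?_⟩
  classical
  choose v hvS hvt using ht
  have hcard : ∀ w ∈ S, (((Finset.univ.filter (fun j => v j = w)).card : ℕ) : ℝ) * N.natDegree ≤
      A * degPlace w * idx C N := by
    intro w hw
    set T : Finset (Fin n) := Finset.univ.filter (fun j => v j = w) with hT
    let e : Fin T.card ≃ T := (Fintype.equivFinOfCardEq (Fintype.card_coe T)).symm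
    refine hA K N hN T.card (fun i => f (e i).1) (fun i => hf _) (fun i j => ?_) w (hS w hw)
      (fun i => he _ w hw) (fun i => ?_)
    · rw [ho]
      by_cases hij : i = j
      · rw [if_pos hij, if_pos (by rw [hij])]
      · rw [if_neg hij, if_neg (fun h => hij (e.injective (Subtype.ext h)))]
    · have h1 : v (e i).1 = w := (Finset.mem_filter.1 (e i).2).2
      rw [← h1]
      exact hvt _
  have hsum : n = ∑ w ∈ S, (Finset.univ.filter (fun j => v j = w)).card := by
    have := Finset.card_eq_sum_card_fiberwise (f := v) (s := (Finset.univ : Finset (Fin n))) (t := S)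
      (fun j _ => hvS j)
    rw [Finset.card_univ, Fintype.card_fin] at this
    exact this
  calc (n : ℝ) * N.natDegree
      = (∑ w ∈ S, (((Finset.univ.filter (fun j => v j = w)).card : ℕ) : ℝ)) * N.natDegree := by
        rw [← Nat.cast_sum, ← hsum]
    _ = ∑ w ∈ S, (((Finset.univ.filter (fun j => v j = w)).card : ℕ) : ℝ) * N.natDegree := by
        rw [Finset.sum_mul]
    _ ≤ ∑ w ∈ S, (A : ℝ) * degPlace w * idx C N := Finset.sum_le_sum hcard
    _ = A * (∑ w ∈ S, degPlace w : ℕ) * idx C N := by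
        push_cast
        rw [Finset.mul_sum, Finset.sum_mul]

end Pool.Agent.DEN.TMP
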